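import Mathlib

/-! # Convex equivalence relations and transversals of linear orders -/

set_option autoImplicit false

namespace Pool.Agent.W_6cb7ce_h1b

universe u v

variable {X : Type u} [LinearOrder X]

/-- an equivalence relation with convex classes -/
structure Conv (r : X → X → Prop) : Prop where
  refl : ∀ x, r x x
  symm : ∀ {x y}, r x y → r y x
  trans : ∀ {x y z}, r x y → r y z → r x z
  left : ∀ {x y z}, x ≤ y → y ≤ z → r x z → r x y

namespace Conv

variable {r : X → X → Prop} (h : Conv r)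

include h in
theorem equiv : Equivalence r := ⟨h.refl, h.symm, h.trans⟩

/-- the setoid -/
def setoid : Setoid X := ⟨r, h.equiv⟩

/-- the representative of the class of `x` -/
noncomputable def rep (x : X) : X := Quotient.out (Quotient.mk h.setoid x)

theorem rep_rel (x : X) : r (h.rep x) x := by
  have := Quotient.out_eq (Quotient.mk h.setoid x)
  exact Quotient.exact this

theorem rep_eq {x y : X} (hxy : r x y) : h.rep x = h.rep y := by
  unfold rep
  rw [Quotient.sound (s := h.setoid) hxy]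

theorem rep_rep (x : X) : h.rep (h.rep x) = h.rep x := h.rep_eq (h.rep_rel x)

theorem rel_of_rep {x y : X} (hxy : h.rep x = h.rep y) : r x y :=
  h.trans (h.symm (h.rep_rel x)) (hxy ▸ h.rep_rel y)

include h in
theorem right {x y z : X} (h1 : x ≤ y) (h2 : y ≤ z) (h3 : r x z) : r y z :=
  h.trans (h.symm (h.left h1 h2 h3)) h3

theorem rep_mono : Monotone h.rep := by
  intro x y hxy
  by_contra hlt
  push Not at hlt
  have hne : ¬ r x y := fun hr => hlt.ne (h.rep_eq hr).symm
  rcases le_total (h.rep y) x with h1 | h1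
  · -- rep y ≤ x ≤ y
    exact hne (h.right h1 hxy (h.rep_rel y))
  · -- x ≤ rep y < rep x
    have h2 : r x (h.rep y) := h.left h1 hlt.le (h.symm (h.rep_rel x))
    exact hne (h.trans h2 (h.rep_rel y))

theorem lt_of_rep_lt {x y : X} (hxy : h.rep x < h.rep y) : x < y := by
  by_contra hlt
  push Not at hlt
  exact absurd (h.rep_mono hlt) (not_le.2 hxy)

theorem rep_between {x y z : X} (h1 : x ≤ y) (h2 : y ≤ z) (h3 : h.rep x = h.rep z) :
    h.rep y = h.rep x :=
  le_antisymm ((h.rep_mono h2).trans h3.ge) (h.rep_mono h1)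

/-- the transversal -/
def R : Set X := {x | h.rep x = x}

/-- the class of `q` -/
def Cl (q : X) : Set X := {y | h.rep y = q}

theorem rep_mem (x : X) : h.rep x ∈ h.R := h.rep_rep x

theorem mem_Cl_rep (x : X) : x ∈ h.Cl (h.rep x) := rfl

end Conv

/-! ### Embeddings of subsets -/

/-- the suborder `S` embeds in the suborder `T` -/
def EmbOn (S T : Set X) : Prop := ∃ f : X → X, StrictMonoOn f S ∧ Set.MapsTo f S T

theorem EmbOn.trans {S T U : Set X} (h1 : EmbOn S T) (h2 : EmbOn T U) : EmbOn S U := by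
  obtain ⟨f, hf, hf'⟩ := h1
  obtain ⟨g, hg, hg'⟩ := h2
  exact ⟨g ∘ f, hg.comp hf hf', hg'.comp hf'⟩

theorem EmbOn.of_subset {S T : Set X} (h : S ⊆ T) : EmbOn S T :=
  ⟨id, strictMonoOn_id, fun _ hx => h hx⟩

theorem embOn_iff {S T : Set X} : EmbOn S T ↔ ∃ f : S → T, StrictMono f := by
  classical
  constructor
  · rintro ⟨f, hf, hf'⟩
    exact ⟨fun x => ⟨f x, hf' x.2⟩, fun x y hxy => hf x.2 y.2 hxy⟩
  · rintro ⟨f, hf⟩
    refine ⟨fun x => if hx : x ∈ S then f ⟨x, hx⟩ else x, ?_, ?_⟩
    · intro x hx y hy hxy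
      simp only [hx, hy, dif_pos]
      exact hf (a := ⟨x, hx⟩) (b := ⟨y, hy⟩) hxy
    · intro x hx
      simp only [hx, dif_pos]
      exact (f ⟨x, hx⟩).2

theorem embOn_univ_iff {T : Set X} : EmbOn Set.univ T ↔ ∃ f : X → T, StrictMono f := by
  constructor
  · rintro ⟨f, hf, hf'⟩
    exact ⟨fun x => ⟨f x, hf' (Set.mem_univ x)⟩,
      fun x y hxy => hf (Set.mem_univ x) (Set.mem_univ y) hxy⟩
  · rintro ⟨f, hf⟩
    exact ⟨fun x => f x, fun x _ y _ hxy => hf hxy, fun x _ => (f x).2⟩

/-- the image of a set under a strictly monotone map embeds in the set -/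
theorem embOn_image {h : X → X} (hh : StrictMono h) (B : Set X) : EmbOn (h '' B) B := by
  classical
  rcases isEmpty_or_nonempty X with hX | hX
  · exact ⟨id, strictMonoOn_id, fun x _ => (hX.false x).elim⟩
  refine ⟨Function.invFun h, ?_, ?_⟩
  · rintro _ ⟨x, _, rfl⟩ _ ⟨y, _, rfl⟩ hxy
    rw [Function.leftInverse_invFun hh.injective x, Function.leftInverse_invFun hh.injective y]
    exact hh.lt_iff_lt.1 hxy
  · rintro _ ⟨x, hx, rfl⟩
    rw [Function.leftInverse_invFun hh.injective x]
    exact hx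

theorem embOn_of_image {h : X → X} (hh : StrictMono h) (B : Set X) : EmbOn B (h '' B) :=
  ⟨h, hh.strictMonoOn B, fun x hx => ⟨x, hx, rfl⟩⟩

/-- a nontrivial dense order does not embed in a well order -/
theorem no_emb_wf {Y : Type u} [LinearOrder Y] [DenselyOrdered Y] [Nontrivial Y]
    {J : Type v} [LinearOrder J] [WellFoundedLT J] : ¬ ∃ g : Y → J, StrictMono g := by
  rintro ⟨g, hg⟩
  obtain ⟨e⟩ := Order.embedding_from_countable_to_dense (α := ℕᵒᵈ) (β := Y)
  have h1 : StrictAnti (fun n : ℕ => g (e (OrderDual.toDual n))) := by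
    intro a b hab
    exact hg (e.strictMono (OrderDual.toDual_lt_toDual.2 hab))
  exact not_strictAnti_of_wellFoundedLT _ h1

theorem no_emb_wf' {Y : Type u} [LinearOrder Y] [DenselyOrdered Y] [Nontrivial Y]
    {J : Type v} [LinearOrder J] [WellFoundedGT J] : ¬ ∃ g : Y → J, StrictMono g := by
  rintro ⟨g, hg⟩
  obtain ⟨e⟩ := Order.embedding_from_countable_to_dense (α := ℕ) (β := Y)
  have h1 : StrictMono (fun n : ℕ => g (e n)) := hg.comp e.strictMono
  exact not_strictMono_of_wellFoundedGT _ h1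

end Pool.Agent.W_6cb7ce_h1b
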