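import Pool.Agent.W_6cb7ce_h1b.Scat

/-! # Diagonalisation: the transversal has many self-embeddings -/

set_option autoImplicit false

namespace Pool.Agent.W_6cb7ce_h1b

universe u v

open Cardinal Set

theorem diag_aux {Y : Type u} {μ : Cardinal.{u}} (hμ : ℵ₀ ≤ μ) (A : μ.ord.ToType → Set Y)
    (hA : ∀ j, μ ≤ #(A j)) : ∃ D : Set Y, ∀ j, (∃ a ∈ A j, a ∈ D) ∧ ∃ b ∈ A j, b ∉ D := by
  classical
  have hstep : ∀ (j : μ.ord.ToType) (G : ∀ i, i < j → Y × Y), ∃ u : Y × Y,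
      u.1 ∈ A j ∧ u.2 ∈ A j ∧ u.1 ≠ u.2 ∧
      ∀ i (hi : i < j), u.1 ≠ (G i hi).1 ∧ u.1 ≠ (G i hi).2 ∧ u.2 ≠ (G i hi).1 ∧
        u.2 ≠ (G i hi).2 := by
    intro j G
    set P : Set Y := range (fun i : Iio j => (G i.1 i.2).1) ∪
      range (fun i : Iio j => (G i.1 i.2).2) with hP
    have hP1 : #P < μ := by
      refine (Cardinal.mk_union_le _ _).trans_lt (Cardinal.add_lt_of_lt hμ ?_ ?_)
      · exact Cardinal.mk_range_le.trans_lt (Cardinal.mk_Iio_toType_ord_lt j)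
      · exact Cardinal.mk_range_le.trans_lt (Cardinal.mk_Iio_toType_ord_lt j)
    have key : ∀ Q : Set Y, #Q < μ → ∃ a ∈ A j, a ∉ Q := by
      intro Q hQ
      by_contra hcon
      push Not at hcon
      exact absurd ((hA j).trans (Cardinal.mk_le_mk_of_subset (fun a ha => hcon a ha)))
        (not_le.2 hQ)
    obtain ⟨a, ha, ha'⟩ := key P hP1
    obtain ⟨b, hb, hb'⟩ := key (insert a P) (Cardinal.mk_insert_le.trans_lt
      (Cardinal.add_lt_of_lt hμ hP1 (Cardinal.one_lt_aleph0.trans_le hμ)))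
    rw [mem_insert_iff] at hb'
    push Not at hb'
    refine ⟨(a, b), ha, hb, fun h => hb'.1 h.symm, fun i hi => ⟨?_, ?_, ?_, ?_⟩⟩
    · rintro rfl
      exact ha' (Or.inl ⟨⟨i, hi⟩, rfl⟩)
    · rintro rfl
      exact ha' (Or.inr ⟨⟨i, hi⟩, rfl⟩)
    · rintro rfl
      exact hb'.2 (Or.inl ⟨⟨i, hi⟩, rfl⟩)
    · rintro rfl
      exact hb'.2 (Or.inr ⟨⟨i, hi⟩, rfl⟩)
  let step : (j : μ.ord.ToType) → (∀ i, i < j → Y × Y) → Y × Y := fun j G => (hstep j G).choose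
  let c : μ.ord.ToType → Y × Y := (wellFounded_lt (α := μ.ord.ToType)).fix step
  have hc : ∀ j, (c j).1 ∈ A j ∧ (c j).2 ∈ A j ∧ (c j).1 ≠ (c j).2 ∧
      ∀ i, i < j → (c j).1 ≠ (c i).1 ∧ (c j).1 ≠ (c i).2 ∧ (c j).2 ≠ (c i).1 ∧
        (c j).2 ≠ (c i).2 := by
    intro j
    have h1 : c j = step j (fun i _ => c i) := WellFounded.fix_eq _ _ _
    have h2 := (hstep j (fun i _ => c i)).choose_spec
    rw [h1]
    exact h2
  refine ⟨range (fun j => (c j).1), fun j => ⟨⟨(c j).1, (hc j).1, ⟨j, rfl⟩⟩,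
    ⟨(c j).2, (hc j).2.1, ?_⟩⟩⟩
  rintro ⟨i, hi⟩
  have hi' : (c i).1 = (c j).2 := hi
  rcases lt_trichotomy i j with h | h | h
  · exact ((hc j).2.2.2 i h).2.2.1 hi'.symm
  · subst h
    exact (hc i).2.2.1 hi'
  · exact ((hc i).2.2.2 j h).2.1 hi'

theorem diag {Y ι : Type u} {μ : Cardinal.{u}} (hμ : ℵ₀ ≤ μ) (hY : μ ≤ #Y) (hι : #ι ≤ μ)
    (A : ι → Set Y) (hA : ∀ i, μ ≤ #(A i)) :
    ∃ D : Set Y, ∀ i, (∃ a ∈ A i, a ∈ D) ∧ ∃ b ∈ A i, b ∉ D := by
  classical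
  have h1 : #ι ≤ #(μ.ord.ToType) := by rwa [Cardinal.mk_ord_toType]
  obtain ⟨e⟩ := (Cardinal.le_def _ _).1 h1
  obtain ⟨D, hD⟩ := diag_aux hμ (fun j => if h : ∃ i, e i = j then A h.choose else univ) (by
    intro j
    by_cases h : ∃ i, e i = j
    · rw [dif_pos h]
      exact hA _
    · rw [dif_neg h, Cardinal.mk_univ]
      exact hY)
  refine ⟨D, fun i => ?_⟩
  have h2 : ∃ i', e i' = e i := ⟨i, rfl⟩
  have h3 : h2.choose = i := e.injective h2.choose_spec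
  have h4 := hD (e i)
  rw [dif_pos h2, h3] at h4
  exact h4

variable {X : Type u} [LinearOrder X]

theorem Bd.union {D : Dbl X} {E E' : Set X} (hE : Bd D E) (hE' : Bd D E') : Bd D (E ∪ E') := by
  refine Bd.mono ?_ (bd_iUnion D (fun n : ℕ => if n = 0 then E else E') (by
    intro n
    by_cases h : n = 0
    · simp only [h, if_true]
      exact hE
    · simp only [h, if_false]
      exact hE'))
  rintro x (hx | hx)
  · exact mem_iUnion.2 ⟨0, hx⟩
  · exact mem_iUnion.2 ⟨1, hx⟩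

/-- the transversal has more self-embeddings than elements -/
theorem many_emb (D : Dbl X) (hU : Untr X) (hR : Sm (conv D).R) :
    #(conv D).R < #((conv D).R ↪o (conv D).R) := by
  by_contra hcon
  push Not at hcon
  obtain ⟨S, hS⟩ := diag (Y := (conv D).R) (ι := (conv D).R ↪o (conv D).R) (aleph0_le_R D)
    le_rfl hcon (fun f => range f) (fun f => by
      rw [Cardinal.mk_range_eq _ f.injective])
  have key : ∀ E : Set X, E ⊆ (conv D).R → ¬ Bd D E →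
      ∃ f : (conv D).R ↪o (conv D).R, ∀ x, ((f x : (conv D).R) : X) ∈ E := by
    intro E hE hE'
    obtain ⟨f, hf⟩ := embOn_iff.1 (emb_of_not_bd D hE')
    refine ⟨OrderEmbedding.ofStrictMono (fun x => ⟨f x, hE (f x).2⟩) (fun x y hxy => hf hxy), ?_⟩
    intro x
    exact (f x).2
  have h1 : Bd D (Subtype.val '' S) := by
    by_contra h
    obtain ⟨f, hf⟩ := key _ (by rintro _ ⟨x, _, rfl⟩; exact x.2) h
    obtain ⟨_, ⟨x, rfl⟩, hx⟩ := (hS f).2
    obtain ⟨y, hy, hy'⟩ := hf x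
    exact hx (Subtype.ext hy' ▸ hy)
  have h2 : Bd D (Subtype.val '' Sᶜ) := by
    by_contra h
    obtain ⟨f, hf⟩ := key _ (by rintro _ ⟨x, _, rfl⟩; exact x.2) h
    obtain ⟨_, ⟨x, rfl⟩, hx⟩ := (hS f).1
    obtain ⟨y, hy, hy'⟩ := hf x
    exact hy (Subtype.ext hy' ▸ hx)
  refine not_bd_R D hU hR (Bd.mono ?_ (h1.union h2))
  intro x hx
  by_cases h : (⟨x, hx⟩ : (conv D).R) ∈ S
  · exact Or.inl ⟨_, h, rfl⟩
  · exact Or.inr ⟨⟨x, hx⟩, h, rfl⟩

/-- the negative answer for sigma-scattered orders -/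
theorem scattered (D : Dbl X) (hU : Untr X) (hR : Sm (conv D).R) (S : ℕ → Set X)
    (hS : ⋃ n, S n = Set.univ) : ∃ n, ∃ f : ℚ → S n, StrictMono f := by
  have hc := aleph0_le_R D
  have h1 : ∃ n, #((conv D).R) ≤ #((Subtype.val ⁻¹' S n : Set (conv D).R)) := by
    by_contra hcon
    push Not at hcon
    have h2 := mk_iUnion_lt (T := (conv D).R) (ι := ULift.{u} ℕ)
      (fun n => (Subtype.val ⁻¹' S n.down : Set (conv D).R)) hc (by
        have : #(ULift.{u} ℕ) = ℵ₀ := by simp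
        rw [this]
        exact aleph0_lt_nu D hU hR) (fun n => hcon n.down)
    have h3 : (⋃ n : ULift.{u} ℕ, (Subtype.val ⁻¹' S n.down : Set (conv D).R)) = Set.univ := by
      refine eq_univ_of_forall fun x => ?_
      have hx : (x : X) ∈ ⋃ n, S n := hS ▸ Set.mem_univ _
      obtain ⟨n, hn⟩ := mem_iUnion.1 hx
      exact mem_iUnion.2 ⟨⟨n⟩, hn⟩
    rw [h3, Cardinal.mk_univ] at h2
    exact lt_irrefl _ h2
  obtain ⟨n, hn⟩ := h1
  have hcard : #((Subtype.val ⁻¹' S n : Set (conv D).R)) = #(conv D).R :=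
    le_antisymm (Cardinal.mk_set_le _) hn
  have hcof : (#((Subtype.val ⁻¹' S n : Set (conv D).R))).ord.cof = nu D := by
    rw [hcard]
    rfl
  have h4 : ∀ g : ((#((Subtype.val ⁻¹' S n : Set (conv D).R))).ord.cof).ord.ToType →
      (Subtype.val ⁻¹' S n : Set (conv D).R), ¬ StrictMono g := by
    rw [hcof]
    intro g hg
    exact no_mono D hU hR (fun j => (g j : (conv D).R)) (fun i j hij => hg hij)
  have h5 : ∀ g : ((#((Subtype.val ⁻¹' S n : Set (conv D).R))).ord.cof).ord.ToType →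
      (Subtype.val ⁻¹' S n : Set (conv D).R), ¬ StrictAnti g := by
    rw [hcof]
    intro g hg
    exact no_anti D hU hR (fun j => (g j : (conv D).R)) (fun i j hij => hg hij)
  obtain ⟨f, hf⟩ := rat_of_no_seq (hcard ▸ hc) h4 h5
  exact ⟨n, fun q => ⟨((f q : (conv D).R) : X), (f q).2⟩, fun a b hab => hf hab⟩

end Pool.Agent.W_6cb7ce_h1b
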