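import Pool.Agent.W_6cb7ce_h1b.Diag

/-! # Interfaces for the final theorems -/

set_option autoImplicit false

namespace Pool.Agent.W_6cb7ce_h1b

universe u v

open Cardinal Set

variable {X : Type u} [LinearOrder X]

theorem dbl_of (x0 : X) (h1 : ∃ f : Fin 2 ×ₗ X → X, StrictMono f)
    (h2 : ∃ f : X ×ₗ Fin 2 → X, StrictMono f) : Nonempty (Dbl X) := by
  obtain ⟨F, hF⟩ := h1
  obtain ⟨G, hG⟩ := h2
  refine ⟨⟨x0, fun x => F (toLex (0, x)), fun x => F (toLex (1, x)), ?_, ?_, ?_,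
    fun x => G (toLex (x, 0)), fun x => G (toLex (x, 1)), ?_, ?_⟩⟩
  · intro x y hxy
    exact hF (Prod.Lex.toLex_lt_toLex.2 (Or.inr ⟨rfl, hxy⟩))
  · intro x y hxy
    exact hF (Prod.Lex.toLex_lt_toLex.2 (Or.inr ⟨rfl, hxy⟩))
  · intro x y
    exact hF (Prod.Lex.toLex_lt_toLex.2 (Or.inl (by decide : (0 : Fin 2) < 1)))
  · intro x
    exact hG (Prod.Lex.toLex_lt_toLex.2 (Or.inr ⟨rfl, (by decide : (0 : Fin 2) < 1)⟩))
  · intro x y hxy
    exact hG (Prod.Lex.toLex_lt_toLex.2 (Or.inl hxy))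

/-- the square embeds or the transversal is small -/
theorem square_or (D : Dbl X) : (∃ f : X ×ₗ X → X, StrictMono f) ∨ Sm (conv D).R := by
  by_cases h : EmbOn (univ : Set X) (conv D).R
  · left
    obtain ⟨F, hF, hF'⟩ := square_of_emb D h
    refine ⟨fun p => F (ofLex p).1 (ofLex p).2, ?_⟩
    intro p q hpq
    rcases (Prod.Lex.lt_iff.1 hpq) with h1 | ⟨h1, h2⟩
    · exact hF' _ _ _ _ h1
    · show F (ofLex p).1 (ofLex p).2 < F (ofLex q).1 (ofLex q).2
      rw [h1]
      exact hF _ h2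
  · exact Or.inr h

/-- `X` embeds in its square -/
theorem emb_square (x0 : X) : ∃ f : X → X ×ₗ X, StrictMono f :=
  ⟨fun x => toLex (x0, x), fun _ _ hxy => Prod.Lex.toLex_lt_toLex.2 (Or.inr ⟨rfl, hxy⟩)⟩

/-- the index order of every large family of disjoint intervals of the transversal contains
the transversal -/
theorem emb_index (D : Dbl X) (hU : Untr X) (hR : Sm (conv D).R) {J : Type v} [LinearOrder J]
    (lo hi : J → (conv D).R) (hlo : ∀ j, lo j < hi j) (hdisj : ∀ j j', j < j' → hi j ≤ lo j')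
    (hJ : Cardinal.lift.{v} (nu D) ≤ Cardinal.lift.{u} #J) :
    ∃ g : (conv D).R → J, StrictMono g := by
  classical
  by_contra hno
  obtain ⟨E, hE, hE'⟩ := cover D
  choose B hB hB' using fun j => bd_of_lt D (hE j)
  have hJ' : Cardinal.lift.{v} #(nu D).ord.ToType ≤ Cardinal.lift.{u} #J := by
    rwa [Cardinal.mk_ord_toType]
  obtain ⟨e⟩ := Cardinal.lift_mk_le'.1 hJ'
  have hne : Nonempty (nu D).ord.ToType := by
    rw [← Cardinal.mk_ne_zero_iff, Cardinal.mk_ord_toType]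
    exact (Cardinal.aleph0_pos.trans_le (aleph0_le_nu D)).ne'
  have hr : ∀ q : (conv D).R, (conv D).rep (q : X) = q := fun q => q.2
  obtain ⟨A, hA, hA'⟩ := comb D (fun j => ((lo j : (conv D).R) : X)) (fun j => hi j)
    (fun j => hlo j) (fun j => by
      simp only [hr]
      exact (show ((lo j : (conv D).R) : X) < hi j from hlo j).ne)
    (fun j j' hjj' => hdisj j j' hjj') (fun j => B (Function.invFun e j)) (fun j => hB _) hno
  refine not_bd_R D hU hR ⟨A, hA, fun q hq => ?_⟩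
  obtain ⟨i, hi'⟩ := mem_iUnion.1 (hE' hq)
  have h1 := (hB' i q hi')
  have h2 := hA' (e i)
  rw [Function.leftInverse_invFun e.injective i] at h2
  exact h1.trans h2

end Pool.Agent.W_6cb7ce_h1b
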