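import Pool.Agent.W_6cb7ce_h1b.Conv

/-! # The structure of an untranscendable order which does not contain its square -/

set_option autoImplicit false

namespace Pool.Agent.W_6cb7ce_h1b

universe u v

open Cardinal Set

variable {X : Type u} [LinearOrder X]

/-- `S` is small: the whole order does not embed in `S` -/
def Sm (S : Set X) : Prop := ¬ EmbOn (univ : Set X) S

/-- the hypotheses on the order (apart from untranscendability) -/
structure Dbl (X : Type u) [LinearOrder X] where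
  x0 : X
  f0 : X → X
  f1 : X → X
  hf0 : StrictMono f0
  hf1 : StrictMono f1
  f01 : ∀ x y, f0 x < f1 y
  d0 : X → X
  d1 : X → X
  d01 : ∀ x, d0 x < d1 x
  d10 : ∀ x y, x < y → d1 x < d0 y

theorem Sm.mono {S T : Set X} (h : S ⊆ T) (hT : Sm T) : Sm S :=
  fun hS => hT (hS.trans (EmbOn.of_subset h))

theorem sm_union (D : Dbl X) {S T : Set X} (hST : ∀ s ∈ S, ∀ t ∈ T, s < t) (hS : Sm S)
    (hT : Sm T) : Sm (S ∪ T) := by
  rintro ⟨f, hf, hf'⟩
  by_cases hx : ∃ x, f (D.f0 x) ∈ T
  · obtain ⟨x, hx⟩ := hx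
    refine hT ⟨fun y => f (D.f1 y), ?_, ?_⟩
    · intro y _ z _ hyz
      exact hf (mem_univ _) (mem_univ _) (D.hf1 hyz)
    · intro y _
      rcases hf' (mem_univ (D.f1 y)) with h | h
      · exact absurd (hST _ h _ hx) (not_lt.2 (hf (mem_univ _) (mem_univ _) (D.f01 x y)).le)
      · exact h
  · push Not at hx
    refine hS ⟨fun y => f (D.f0 y), ?_, ?_⟩
    · intro y _ z _ hyz
      exact hf (mem_univ _) (mem_univ _) (D.hf0 hyz)
    · intro y _
      rcases hf' (mem_univ (D.f0 y)) with h | h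
      · exact h
      · exact absurd h (hx y)

theorem sm_singleton (D : Dbl X) (x : X) : Sm ({x} : Set X) := by
  rintro ⟨f, hf, hf'⟩
  have h1 := hf' (mem_univ (D.f0 D.x0))
  have h2 := hf' (mem_univ (D.f1 D.x0))
  have h3 := hf (mem_univ _) (mem_univ _) (D.f01 D.x0 D.x0)
  rw [mem_singleton_iff] at h1 h2
  rw [h1, h2] at h3
  exact lt_irrefl _ h3

theorem sm_Icc (D : Dbl X) {a b c : X} (h1 : Sm (Icc a b)) (h2 : Sm (Icc b c)) :
    Sm (Icc a c) := by
  have h3 : Sm (Icc a b ∪ Ioc b c) := by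
    refine sm_union D ?_ h1 (h2.mono Ioc_subset_Icc_self)
    intro s hs t ht
    exact hs.2.trans_lt ht.1
  refine h3.mono ?_
  intro x hx
  rcases le_or_gt x b with h | h
  · exact Or.inl ⟨hx.1, h⟩
  · exact Or.inr ⟨h, hx.2⟩

theorem conv (D : Dbl X) : Conv (fun x y : X => Sm (uIcc x y)) where
  refl x := by
    have : uIcc x x = {x} := by simp
    rw [this]
    exact sm_singleton D x
  symm := fun {x y} h => by rwa [uIcc_comm]
  trans := fun {x y z} hxy hyz => by
    have hxy' : Sm (uIcc x y) := hxy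
    have hyz' : Sm (uIcc y z) := hyz
    show Sm (uIcc x z)
    rcases le_total x y with h1 | h1 <;> rcases le_total y z with h2 | h2 <;>
      rcases le_total x z with h3 | h3 <;>
      simp only [uIcc_of_le, uIcc_of_ge, h1, h2, h3] at hxy' hyz' ⊢
    · exact sm_Icc D hxy' hyz'
    · exact hxy'.mono (Icc_subset_Icc (h1.trans h2) h1)
    · exact hxy'.mono (Icc_subset_Icc_right h2)
    · exact hyz'.mono (Icc_subset_Icc_right h1)
    · exact hyz'.mono (Icc_subset_Icc_left h1)
    · exact hxy'.mono (Icc_subset_Icc_left h2)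
    · exact hxy'.mono (Icc_subset_Icc h1 (h2.trans h1))
    · exact sm_Icc D hyz' hxy'
  left := fun {x y z} h1 h2 h3 => by
    have h3' : Sm (uIcc x z) := h3
    rw [uIcc_of_le (h1.trans h2)] at h3'
    show Sm (uIcc x y)
    rw [uIcc_of_le h1]
    exact h3'.mono (Icc_subset_Icc_right h2)

/-- classes are small -/
theorem sm_Cl (D : Dbl X) (q : X) : Sm ((conv D).Cl q) := by
  rintro ⟨f, hf, hf'⟩
  have ha : (conv D).rep (f (D.f0 D.x0)) = q := hf' (mem_univ _)
  have hb : (conv D).rep (f (D.f1 (D.f1 D.x0))) = q := hf' (mem_univ _)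
  have hab : Sm (uIcc (f (D.f0 D.x0)) (f (D.f1 (D.f1 D.x0)))) :=
    (conv D).rel_of_rep (ha.trans hb.symm)
  have h1 : f (D.f0 D.x0) < f (D.f1 (D.f1 D.x0)) := hf (mem_univ _) (mem_univ _) (D.f01 _ _)
  rw [uIcc_of_le h1.le] at hab
  refine hab ⟨fun y => f (D.f1 (D.f0 y)), ?_, ?_⟩
  · intro y _ z _ hyz
    exact hf (mem_univ _) (mem_univ _) (D.hf1 (D.hf0 hyz))
  · intro y _
    exact ⟨(hf (mem_univ _) (mem_univ _) (D.f01 _ _)).le,
      (hf (mem_univ _) (mem_univ _) (D.hf1 (D.f01 _ _))).le⟩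

/-- intervals between different classes are large -/
theorem big_Icc (D : Dbl X) {p q : X} (hpq : p < q) (hne : (conv D).rep p ≠ (conv D).rep q) :
    EmbOn (univ : Set X) (Icc p q) := by
  by_contra h
  refine hne ((conv D).rep_eq ?_)
  show Sm (uIcc p q)
  rw [uIcc_of_le hpq.le]
  exact h

theorem big_Ico (D : Dbl X) {p q : X} (hpq : p < q) (hne : (conv D).rep p ≠ (conv D).rep q) :
    ∃ h : X → X, StrictMono h ∧ ∀ x, h x ∈ Ico p q := by
  obtain ⟨f, hf, hf'⟩ := big_Icc D hpq hne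
  refine ⟨fun x => f (D.f0 x), fun x y hxy => hf (mem_univ _) (mem_univ _) (D.hf0 hxy), ?_⟩
  intro x
  refine ⟨(hf' (mem_univ _)).1, ?_⟩
  exact (hf (mem_univ _) (mem_univ (D.f1 x)) (D.f01 x x)).trans_le (hf' (mem_univ _)).2

/-- if the whole order embeds in the transversal, it contains its square -/
theorem square_of_emb (D : Dbl X) (h : EmbOn (univ : Set X) (conv D).R) :
    ∃ F : X → X → X, (∀ x, StrictMono (F x)) ∧ ∀ x x' y y', x < x' → F x y < F x' y' := by
  obtain ⟨f, hf, hf'⟩ := h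
  have h1 : ∀ x : X, ∃ g : X → X, StrictMono g ∧ ∀ y, g y ∈ Ico (f (D.d0 x)) (f (D.d1 x)) := by
    intro x
    refine big_Ico D (hf (mem_univ _) (mem_univ _) (D.d01 x)) ?_
    have e1 : (conv D).rep (f (D.d0 x)) = f (D.d0 x) := hf' (mem_univ _)
    have e2 : (conv D).rep (f (D.d1 x)) = f (D.d1 x) := hf' (mem_univ _)
    rw [e1, e2]
    exact (hf (mem_univ _) (mem_univ _) (D.d01 x)).ne
  choose F hF hF' using h1
  refine ⟨F, hF, fun x x' y y' hxx' => ?_⟩
  exact (hF' x y).2.trans ((hf (mem_univ _) (mem_univ _) (D.d10 x x' hxx')).trans_le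
    (hF' x' y').1)

/-- the set of classes `E` is bounded: all classes embed in one small set -/
def Bd (D : Dbl X) (E : Set X) : Prop :=
  ∃ A : Set X, Sm A ∧ ∀ q ∈ E, EmbOn ((conv D).Cl q) A

theorem Bd.mono {D : Dbl X} {E E' : Set X} (h : E' ⊆ E) (hE : Bd D E) : Bd D E' := by
  obtain ⟨A, hA, hA'⟩ := hE
  exact ⟨A, hA, fun q hq => hA' q (h hq)⟩

/-- unbounded sets of classes contain a copy of the transversal -/
theorem emb_of_not_bd (D : Dbl X) {E : Set X} (hE : ¬ Bd D E) : EmbOn (conv D).R E := by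
  have h1 : ¬ Sm {y | (conv D).rep y ∈ E} := by
    intro hs
    refine hE ⟨_, hs, fun q hq => EmbOn.of_subset ?_⟩
    intro y hy
    have hy' : (conv D).rep y = q := hy
    show (conv D).rep y ∈ E
    rw [hy']
    exact hq
  unfold Sm at h1
  push Not at h1
  obtain ⟨f, hf, hf'⟩ := h1
  refine ⟨fun r => (conv D).rep (f r), ?_, fun r _ => hf' (mem_univ r)⟩
  intro r hr r' hr' hrr'
  have hlt := hf (mem_univ r) (mem_univ r') hrr'
  refine lt_of_le_of_ne ((conv D).rep_mono hlt.le) fun heq => ?_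
  have hs : Sm (uIcc (f r) (f r')) := (conv D).rel_of_rep heq
  rw [uIcc_of_le hlt.le] at hs
  have hr1 : (conv D).rep r = r := hr
  have hr1' : (conv D).rep r' = r' := hr'
  have hb : EmbOn (univ : Set X) (Icc r r') := by
    refine big_Icc D hrr' ?_
    rw [hr1, hr1']
    exact hrr'.ne
  refine hs (hb.trans ⟨f, hf.mono (subset_univ _), ?_⟩)
  intro z hz
  exact ⟨hf.monotoneOn (mem_univ _) (mem_univ _) hz.1,
    hf.monotoneOn (mem_univ _) (mem_univ _) hz.2⟩

/-- combining small sets along disjoint large intervals -/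
theorem comb (D : Dbl X) {J : Type v} [LinearOrder J] (lo hi : J → X) (hlo : ∀ j, lo j < hi j)
    (hne : ∀ j, (conv D).rep (lo j) ≠ (conv D).rep (hi j))
    (hdisj : ∀ j j', j < j' → hi j ≤ lo j') (B : J → Set X) (hB : ∀ j, Sm (B j))
    (hJ : ¬ ∃ g : (conv D).R → J, StrictMono g) : ∃ A : Set X, Sm A ∧ ∀ j, EmbOn (B j) A := by
  choose h hh hh' using fun j => big_Ico D (hlo j) (hne j)
  refine ⟨⋃ j, h j '' B j, ?_, ?_⟩
  · rintro ⟨f, hf, hf'⟩
    have h1 : ∀ x, ∃ j, f x ∈ h j '' B j := fun x => mem_iUnion.1 (hf' (mem_univ x))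
    choose c hc using h1
    have hcI : ∀ x, f x ∈ Ico (lo (c x)) (hi (c x)) := by
      intro x
      obtain ⟨y, _, hy⟩ := hc x
      rw [← hy]
      exact hh' _ y
    have hmono : Monotone c := by
      intro x y hxy
      rcases hxy.eq_or_lt with rfl | hlt
      · exact le_rfl
      by_contra hcon
      push Not at hcon
      have h2 := hf (mem_univ x) (mem_univ y) hlt
      have h3 : f y < f x := (hcI y).2.trans_le ((hdisj _ _ hcon).trans (hcI x).1)
      exact lt_asymm h2 h3
    refine hJ ⟨fun r => c r, ?_⟩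
    rintro ⟨r, hr⟩ ⟨r', hr'⟩ hrr'
    have hrr : r < r' := hrr'
    show c r < c r'
    refine lt_of_le_of_ne (hmono hrr.le) fun heq => ?_
    have hr1 : (conv D).rep r = r := hr
    have hr1' : (conv D).rep r' = r' := hr'
    have hb : EmbOn (univ : Set X) (Icc r r') := by
      refine big_Icc D hrr ?_
      rw [hr1, hr1']
      exact hrr.ne
    refine hB (c r) (hb.trans (EmbOn.trans ⟨f, hf.mono (subset_univ _), ?_⟩
      (embOn_image (hh (c r)) (B (c r)))))
    intro z hz
    have hz1 : c z = c r := le_antisymm ((hmono hz.2).trans heq.ge) (hmono hz.1)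
    have := hc z
    rwa [hz1] at this
  · intro j
    exact (embOn_of_image (hh j) (B j)).trans (EmbOn.of_subset (subset_iUnion (fun j => h j '' B j) j))

/-- the transversal is dense -/
theorem R_dense (D : Dbl X) : DenselyOrdered (conv D).R := by
  refine ⟨?_⟩
  rintro ⟨p, hp⟩ ⟨q, hq⟩ hpq
  have hpq' : p < q := hpq
  have hp1 : (conv D).rep p = p := hp
  have hq1 : (conv D).rep q = q := hq
  by_contra hcon
  push Not at hcon
  have h1 : Sm ((conv D).Cl p ∪ (conv D).Cl q) := by
    refine sm_union D ?_ (sm_Cl D p) (sm_Cl D q)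
    intro s hs t ht
    have hs' : (conv D).rep s = p := hs
    have ht' : (conv D).rep t = q := ht
    exact (conv D).lt_of_rep_lt (by rw [hs', ht']; exact hpq')
  have h2 : Icc p q ⊆ (conv D).Cl p ∪ (conv D).Cl q := by
    intro z hz
    have e1 : p ≤ (conv D).rep z := hp1 ▸ (conv D).rep_mono hz.1
    have e2 : (conv D).rep z ≤ q := hq1 ▸ (conv D).rep_mono hz.2
    rcases e1.eq_or_lt with e3 | e3
    · exact Or.inl e3.symm
    rcases e2.eq_or_lt with e4 | e4
    · exact Or.inr e4
    have e5 : (⟨q, hq⟩ : (conv D).R) ≤ ⟨(conv D).rep z, (conv D).rep_mem z⟩ := hcon _ e3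
    exact absurd e4 (not_lt.2 e5)
  refine (h1.mono h2) (big_Icc D hpq' ?_)
  rw [hp1, hq1]
  exact hpq'.ne

theorem R_nontrivial (D : Dbl X) : Nontrivial (conv D).R := by
  by_contra hcon
  rw [not_nontrivial_iff_subsingleton] at hcon
  refine sm_Cl D ((conv D).rep D.x0) (EmbOn.of_subset ?_)
  intro y _
  have := hcon.elim ⟨(conv D).rep y, (conv D).rep_mem y⟩ ⟨(conv D).rep D.x0, (conv D).rep_mem _⟩
  exact congrArg Subtype.val this

/-- the union of countably many bounded sets is bounded -/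
theorem bd_iUnion (D : Dbl X) (E : ℕ → Set X) (hE : ∀ n, Bd D (E n)) : Bd D (⋃ n, E n) := by
  have := R_dense D
  have := R_nontrivial D
  choose B hB hB' using hE
  obtain ⟨e⟩ := Order.embedding_from_countable_to_dense (α := ℕ) (β := (conv D).R)
  have he : ∀ n, (conv D).rep (e n) = e n := fun n => (e n).2
  have hem : ∀ a b : ℕ, a < b → ((e a : (conv D).R) : X) < e b := fun a b hab => e.strictMono hab
  obtain ⟨A, hA, hA'⟩ := comb D (J := ℕ) (fun n => e (2 * n)) (fun n => e (2 * n + 1))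
    (fun n => hem _ _ (by omega)) (fun n => by
      simp only [he]
      exact (hem _ _ (by omega)).ne) (fun a b hab => by
      rcases Nat.eq_or_lt_of_le (show 2 * a + 1 ≤ 2 * b by omega) with h | h
      · rw [h]
      · exact (hem _ _ h).le) B hB no_emb_wf
  refine ⟨A, hA, fun q hq => ?_⟩
  obtain ⟨n, hn⟩ := mem_iUnion.1 hq
  exact (hB' n q hn).trans (hA' n)

/-- a set of classes of smaller size than the transversal is bounded -/
theorem bd_of_lt (D : Dbl X) {E : Set X} (hE : #E < #(conv D).R) : Bd D E := by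
  by_contra h
  obtain ⟨f, hf⟩ := embOn_iff.1 (emb_of_not_bd D h)
  exact absurd (Cardinal.mk_le_of_injective hf.injective) (not_le.2 hE)

theorem aleph0_le_R (D : Dbl X) : ℵ₀ ≤ #(conv D).R := by
  have := R_dense D
  have := R_nontrivial D
  obtain ⟨e⟩ := Order.embedding_from_countable_to_dense (α := ℕ) (β := (conv D).R)
  have h1 := Cardinal.mk_le_of_injective (α := ULift.{u} ℕ) (f := fun n => e n.down) (by
    intro a b hab
    exact ULift.ext _ _ (e.injective hab))
  simpa using h1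

/-- the cofinality of the size of the transversal -/
noncomputable def nu (D : Dbl X) : Cardinal.{u} := (#(conv D).R).ord.cof

theorem aleph0_le_nu (D : Dbl X) : ℵ₀ ≤ nu D := by
  unfold nu
  rw [Ordinal.aleph0_le_cof_iff, Ordinal.one_lt_cof_iff]
  exact Cardinal.isSuccLimit_ord (aleph0_le_R D)

/-- the transversal is a union of `nu` smaller sets -/
theorem cover (D : Dbl X) : ∃ E : (nu D).ord.ToType → Set X, (∀ j, #(E j) < #(conv D).R) ∧
    (conv D).R ⊆ ⋃ j, E j := by
  classical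
  set μ := #(conv D).R with hμ
  obtain ⟨e⟩ : Nonempty ((conv D).R ≃ μ.ord.ToType) := by
    rw [← Cardinal.eq, Cardinal.mk_ord_toType]
  obtain ⟨s, hs, hs'⟩ := Order.exists_cof_eq μ.ord.ToType
  obtain ⟨c⟩ : Nonempty ((nu D).ord.ToType ≃ s) := by
    rw [← Cardinal.eq, Cardinal.mk_ord_toType, hs', Ordinal.cof_toType]
    rfl
  refine ⟨fun j => Subtype.val '' {q : (conv D).R | e q ≤ (c j : μ.ord.ToType)}, ?_, ?_⟩
  · intro j
    refine Cardinal.mk_image_le.trans_lt ?_
    have h1 : #{q : (conv D).R | e q ≤ (c j : μ.ord.ToType)} ≤ #(Iic (c j : μ.ord.ToType)) :=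
      Cardinal.mk_le_of_injective (f := fun q => (⟨e q.1, q.2⟩ : Iic (c j : μ.ord.ToType)))
        (by
          intro a b hab
          exact Subtype.ext (e.injective (congrArg Subtype.val hab)))
    refine h1.trans_lt ?_
    have h2 : #(Iio (c j : μ.ord.ToType)) < μ := Cardinal.mk_Iio_toType_ord_lt _
    have h3 : #(Iic (c j : μ.ord.ToType)) ≤ #(Iio (c j : μ.ord.ToType)) + 1 := by
      rw [← Iio_insert]
      exact Cardinal.mk_insert_le
    refine h3.trans_lt ?_
    exact Cardinal.add_lt_of_lt (aleph0_le_R D) h2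
      (Cardinal.one_lt_aleph0.trans_le (aleph0_le_R D))
  · intro q hq
    obtain ⟨y, hy, hy'⟩ := hs (e ⟨q, hq⟩)
    refine mem_iUnion.2 ⟨c.symm ⟨y, hy⟩, ⟨q, hq⟩, ?_, rfl⟩
    simpa using hy'

/-- untranscendability; `B ×ₗ A` is `B` copies of `A` -/
def Untr (X : Type u) [LinearOrder X] : Prop :=
  ∀ A B : Set X, (∃ f : X → B ×ₗ A, StrictMono f) →
    (∃ f : X → A, StrictMono f) ∨ ∃ f : X → B, StrictMono f

/-- the set of all classes is unbounded -/
theorem not_bd_R (D : Dbl X) (hU : Untr X) (hR : Sm (conv D).R) : ¬ Bd D (conv D).R := by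
  rintro ⟨A, hA, hA'⟩
  have h2 : ∀ q : X, ∃ f : X → X, q ∈ (conv D).R → StrictMonoOn f ((conv D).Cl q) ∧
      MapsTo f ((conv D).Cl q) A := by
    intro q
    by_cases hq : q ∈ (conv D).R
    · obtain ⟨f, hf⟩ := hA' q hq
      exact ⟨f, fun _ => hf⟩
    · exact ⟨id, fun h => absurd h hq⟩
  choose e he using h2
  have he' := fun x : X => he ((conv D).rep x) ((conv D).rep_mem x)
  have hf : StrictMono (fun x : X => (toLex ((⟨(conv D).rep x, (conv D).rep_mem x⟩ : (conv D).R),
      (⟨e ((conv D).rep x) x, (he' x).2 ((conv D).mem_Cl_rep x)⟩ : A)) :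
      (conv D).R ×ₗ A)) := by
    intro x y hxy
    rw [Prod.Lex.toLex_lt_toLex]
    rcases ((conv D).rep_mono hxy.le).lt_or_eq with h | h
    · exact Or.inl h
    · refine Or.inr ⟨Subtype.ext h, ?_⟩
      show e ((conv D).rep x) x < e ((conv D).rep y) y
      rw [← h]
      exact (he' x).1 ((conv D).mem_Cl_rep x) (h ▸ (conv D).mem_Cl_rep y) hxy
  rcases hU A (conv D).R ⟨_, hf⟩ with h | h
  · exact hA (embOn_univ_iff.2 h)
  · exact hR (embOn_univ_iff.2 h)

/-- the transversal contains no increasing sequence of length `nu` -/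
theorem no_mono (D : Dbl X) (hU : Untr X) (hR : Sm (conv D).R)
    (g : (nu D).ord.ToType → (conv D).R) : ¬ StrictMono g := by
  intro hg
  have := R_dense D
  have := R_nontrivial D
  have := Cardinal.noMaxOrder (aleph0_le_nu D)
  obtain ⟨E, hE, hE'⟩ := cover D
  choose B hB hB' using fun j => bd_of_lt D (hE j)
  have hs : ∀ j : (nu D).ord.ToType, ∃ i, j < i ∧ ∀ j', j < j' → i ≤ j' := by
    intro j
    obtain ⟨k, hk⟩ := exists_gt j
    have hne : (Ioi j).Nonempty := ⟨k, hk⟩
    refine ⟨WellFounded.min wellFounded_lt (Ioi j) hne, ?_, fun j' hj' => ?_⟩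
    · exact WellFounded.min_mem wellFounded_lt (Ioi j) hne
    · exact WellFounded.min_le wellFounded_lt (s := Ioi j) hj'
  choose s hs1 hs2 using hs
  have hgr : ∀ j, (conv D).rep (g j) = g j := fun j => (g j).2
  obtain ⟨A, hA, hA'⟩ := comb D (fun j => ((g j : (conv D).R) : X)) (fun j => g (s j))
    (fun j => hg (hs1 j)) (fun j => by
      simp only [hgr]
      exact (show ((g j : (conv D).R) : X) < g (s j) from hg (hs1 j)).ne)
    (fun j j' hjj' => hg.monotone (hs2 j j' hjj')) B hB no_emb_wf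
  refine not_bd_R D hU hR ⟨A, hA, fun q hq => ?_⟩
  obtain ⟨j, hj⟩ := mem_iUnion.1 (hE' hq)
  exact (hB' j q hj).trans (hA' j)

/-- the transversal contains no decreasing sequence of length `nu` -/
theorem no_anti (D : Dbl X) (hU : Untr X) (hR : Sm (conv D).R)
    (g : (nu D).ord.ToType → (conv D).R) : ¬ StrictAnti g := by
  intro hg
  have := R_dense D
  have := R_nontrivial D
  have := Cardinal.noMaxOrder (aleph0_le_nu D)
  obtain ⟨E, hE, hE'⟩ := cover D
  choose B hB hB' using fun j => bd_of_lt D (hE j)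
  have hs : ∀ j : (nu D).ord.ToType, ∃ i, j < i ∧ ∀ j', j < j' → i ≤ j' := by
    intro j
    obtain ⟨k, hk⟩ := exists_gt j
    have hne : (Ioi j).Nonempty := ⟨k, hk⟩
    refine ⟨WellFounded.min wellFounded_lt (Ioi j) hne, ?_, fun j' hj' => ?_⟩
    · exact WellFounded.min_mem wellFounded_lt (Ioi j) hne
    · exact WellFounded.min_le wellFounded_lt (s := Ioi j) hj'
  choose s hs1 hs2 using hs
  have hgr : ∀ j, (conv D).rep (g j) = g j := fun j => (g j).2
  obtain ⟨A, hA, hA'⟩ := comb D (J := (nu D).ord.ToTypeᵒᵈ)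
    (fun j => ((g (s (OrderDual.ofDual j)) : (conv D).R) : X)) (fun j => g (OrderDual.ofDual j))
    (fun j => hg (hs1 _)) (fun j => by
      simp only [hgr]
      exact (show ((g (s (OrderDual.ofDual j)) : (conv D).R) : X) < g (OrderDual.ofDual j)
        from hg (hs1 _)).ne)
    (fun j j' hjj' => hg.antitone (hs2 _ _ hjj')) (fun j => B (OrderDual.ofDual j))
    (fun j => hB _) no_emb_wf'
  refine not_bd_R D hU hR ⟨A, hA, fun q hq => ?_⟩
  obtain ⟨j, hj⟩ := mem_iUnion.1 (hE' hq)
  exact (hB' j q hj).trans (hA' (OrderDual.toDual j))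

theorem aleph0_lt_nu (D : Dbl X) (hU : Untr X) (hR : Sm (conv D).R) : ℵ₀ < nu D := by
  refine lt_of_le_of_ne (aleph0_le_nu D) fun h => ?_
  have := R_dense D
  have := R_nontrivial D
  have : Countable (nu D).ord.ToType := by
    rw [← Cardinal.mk_le_aleph0_iff, Cardinal.mk_ord_toType, ← h]
  obtain ⟨e⟩ := Order.embedding_from_countable_to_dense (α := (nu D).ord.ToType)
    (β := (conv D).R)
  exact no_mono D hU hR e e.strictMono

end Pool.Agent.W_6cb7ce_h1b
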