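import Pool.Agent.W_6cb7ce_h1b.Main

/-! # Scattered orders contain long well ordered or inversely well ordered subsets -/

set_option autoImplicit false

namespace Pool.Agent.W_6cb7ce_h1b

universe u v

open Cardinal Set

/-- a strictly increasing sequence of length `ν` -/
theorem exists_seq {T : Type u} [LinearOrder T] (U : Set T) (ν : Cardinal.{u})
    (h : ∀ s : Set T, s ⊆ U → #s < ν → ∃ u ∈ U, ∀ y ∈ s, y < u) :
    ∃ g : ν.ord.ToType → T, StrictMono g := by
  classical
  have hstep : ∀ (j : ν.ord.ToType) (G : ∀ i, i < j → U), ∃ u : U, ∀ i (hi : i < j),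
      (G i hi : T) < u := by
    intro j G
    have h1 : #(range (fun i : Iio j => (G i.1 i.2 : T))) < ν :=
      Cardinal.mk_range_le.trans_lt (Cardinal.mk_Iio_toType_ord_lt j)
    obtain ⟨u, hu, hu'⟩ := h (range (fun i : Iio j => (G i.1 i.2 : T))) (by
      rintro _ ⟨i, rfl⟩
      exact (G i.1 i.2).2) h1
    exact ⟨⟨u, hu⟩, fun i hi => hu' _ ⟨⟨i, hi⟩, rfl⟩⟩
  let step : (j : ν.ord.ToType) → (∀ i, i < j → U) → U := fun j G => (hstep j G).choose
  let g : ν.ord.ToType → U := (wellFounded_lt (α := ν.ord.ToType)).fix step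
  refine ⟨fun j => g j, fun i j hij => ?_⟩
  have h1 : g j = step j (fun i _ => g i) := WellFounded.fix_eq _ _ _
  have h2 := (hstep j (fun i _ => g i)).choose_spec i hij
  show (g i : T) < (g j : T)
  rw [h1]
  exact h2

/-- the union of fewer than `cof μ` sets of size less than `μ` -/
theorem mk_iUnion_lt {T ι : Type u} (E : ι → Set T) {μ : Cardinal.{u}} (hμ : ℵ₀ ≤ μ)
    (hι : #ι < μ.ord.cof) (hE : ∀ i, #(E i) < μ) : #(⋃ i, E i) < μ := by
  refine (Cardinal.mk_iUnion_le E).trans_lt ?_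
  refine Cardinal.mul_lt_of_lt hμ (hι.trans_le (Ordinal.cof_ord_le μ)) ?_
  exact Cardinal.iSup_lt_of_lt_cof_ord hι hE

theorem upper_lt {T : Type u} [LinearOrder T] (hc : ℵ₀ ≤ #T)
    (h1 : ∀ g : ((#T).ord.cof).ord.ToType → T, ¬ StrictMono g) (x : T) (U : Set T)
    (hU : ∀ y ∈ U, #(Icc x y) < #T) (hx : ∀ y ∈ U, x ≤ y) : #U < #T := by
  by_contra hcon
  obtain ⟨g, hg⟩ := exists_seq U ((#T).ord.cof) (by
    intro s hs hs'
    by_contra h2
    push Not at h2
    have h3 : U ⊆ ⋃ y : s, Icc x (y : T) := by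
      intro z hz
      obtain ⟨y, hy, hzy⟩ := h2 z hz
      exact mem_iUnion.2 ⟨⟨y, hy⟩, hx z hz, hzy⟩
    exact hcon ((Cardinal.mk_le_mk_of_subset h3).trans_lt
      (mk_iUnion_lt _ hc hs' fun y => hU y (hs y.2))))
  exact h1 g hg

theorem conv_card {T : Type u} [LinearOrder T] (hc : ℵ₀ ≤ #T) :
    Conv (fun x y : T => #(uIcc x y) < #T) where
  refl x := by
    have : uIcc x x = {x} := by simp
    rw [this, Cardinal.mk_singleton]
    exact Cardinal.one_lt_aleph0.trans_le hc
  symm := fun {x y} h => by rwa [uIcc_comm]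
  trans := fun {x y z} hxy hyz => by
    refine (Cardinal.mk_le_mk_of_subset (uIcc_subset_uIcc_union_uIcc (b := y))).trans_lt ?_
    exact (Cardinal.mk_union_le _ _).trans_lt (Cardinal.add_lt_of_lt hc hxy hyz)
  left := fun {x y z} h1 h2 h3 => by
    refine (Cardinal.mk_le_mk_of_subset ?_).trans_lt h3
    rw [uIcc_of_le h1, uIcc_of_le (h1.trans h2)]
    exact Icc_subset_Icc_right h2

theorem Cl_lt {T : Type u} [LinearOrder T] (hc : ℵ₀ ≤ #T)
    (h1 : ∀ g : ((#T).ord.cof).ord.ToType → T, ¬ StrictMono g)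
    (h2 : ∀ g : ((#T).ord.cof).ord.ToType → T, ¬ StrictAnti g) (q : T) :
    #((conv_card hc).Cl q) < #T := by
  rcases (eq_empty_or_nonempty ((conv_card hc).Cl q)) with h | ⟨x, hx⟩
  · rw [h, Cardinal.mk_eq_zero]
    exact Cardinal.aleph0_pos.trans_le hc
  have hr : ∀ y ∈ (conv_card hc).Cl q, #(uIcc x y) < #T := by
    intro y hy
    have e1 : (conv_card hc).rep x = q := hx
    have e2 : (conv_card hc).rep y = q := hy
    exact (conv_card hc).rel_of_rep (e1.trans e2.symm)
  have hup : #((conv_card hc).Cl q ∩ Ici x : Set T) < #T := by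
    refine upper_lt hc h1 x _ ?_ (fun y hy => hy.2)
    intro y hy
    have := hr y hy.1
    rwa [uIcc_of_le hy.2] at this
  have hdown : #((conv_card hc).Cl q ∩ Iic x : Set T) < #T := by
    have h3 := upper_lt (T := Tᵒᵈ) hc (fun g hg => h2 (fun j => OrderDual.ofDual (g j))
      (fun i j hij => OrderDual.ofDual_lt_ofDual.2 (hg hij))) (OrderDual.toDual x)
      (OrderDual.ofDual ⁻¹' ((conv_card hc).Cl q ∩ Iic x : Set T)) (by
        intro y hy
        have h4 := hr (OrderDual.ofDual y) hy.1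
        have hy2 : OrderDual.ofDual y ≤ x := hy.2
        rw [uIcc_of_ge hy2] at h4
        have h5 : Icc (OrderDual.toDual x) y = OrderDual.ofDual ⁻¹' Icc (OrderDual.ofDual y) x := by
          ext z
          constructor
          · rintro ⟨ha, hb⟩
            exact ⟨hb, ha⟩
          · rintro ⟨ha, hb⟩
            exact ⟨hb, ha⟩
        rw [h5]
        exact h4) (fun y hy => hy.2)
    exact h3
  have hsub : (conv_card hc).Cl q ⊆ ((conv_card hc).Cl q ∩ Ici x) ∪
      ((conv_card hc).Cl q ∩ Iic x) := by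
    intro y hy
    rcases le_total x y with h | h
    · exact Or.inl ⟨hy, h⟩
    · exact Or.inr ⟨hy, h⟩
  exact (Cardinal.mk_le_mk_of_subset hsub).trans_lt ((Cardinal.mk_union_le _ _).trans_lt
    (Cardinal.add_lt_of_lt hc hup hdown))

/-- an infinite linear order `T` without increasing and decreasing sequences of length
`cof |T|` contains the rationals -/
theorem rat_of_no_seq {T : Type u} [LinearOrder T] (hc : ℵ₀ ≤ #T)
    (h1 : ∀ g : ((#T).ord.cof).ord.ToType → T, ¬ StrictMono g)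
    (h2 : ∀ g : ((#T).ord.cof).ord.ToType → T, ¬ StrictAnti g) : ∃ f : ℚ → T, StrictMono f := by
  set C := conv_card hc with hC
  have hd : DenselyOrdered C.R := by
    refine ⟨?_⟩
    rintro ⟨p, hp⟩ ⟨q, hq⟩ hpq
    have hpq' : p < q := hpq
    have hp1 : C.rep p = p := hp
    have hq1 : C.rep q = q := hq
    by_contra hcon
    push Not at hcon
    have h3 : Icc p q ⊆ C.Cl p ∪ C.Cl q := by
      intro z hz
      have e1 : p ≤ C.rep z := hp1 ▸ C.rep_mono hz.1
      have e2 : C.rep z ≤ q := hq1 ▸ C.rep_mono hz.2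
      rcases e1.eq_or_lt with e3 | e3
      · exact Or.inl e3.symm
      rcases e2.eq_or_lt with e4 | e4
      · exact Or.inr e4
      have e5 : (⟨q, hq⟩ : C.R) ≤ ⟨C.rep z, C.rep_mem z⟩ := hcon _ e3
      exact absurd e4 (not_lt.2 e5)
    have h4 : #(Icc p q) < #T := (Cardinal.mk_le_mk_of_subset h3).trans_lt
      ((Cardinal.mk_union_le _ _).trans_lt
        (Cardinal.add_lt_of_lt hc (Cl_lt hc h1 h2 p) (Cl_lt hc h1 h2 q)))
    have h5 : C.rep p = C.rep q := C.rep_eq (by rwa [uIcc_of_le hpq'.le])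
    rw [hp1, hq1] at h5
    exact hpq'.ne h5
  have hn : Nontrivial C.R := by
    by_contra hcon
    rw [not_nontrivial_iff_subsingleton] at hcon
    have hne : Nonempty T := by
      rw [← Cardinal.mk_ne_zero_iff]
      exact (Cardinal.aleph0_pos.trans_le hc).ne'
    obtain ⟨x0⟩ := hne
    have h3 : (univ : Set T) ⊆ C.Cl (C.rep x0) := by
      intro y _
      have := hcon.elim ⟨C.rep y, C.rep_mem y⟩ ⟨C.rep x0, C.rep_mem _⟩
      exact congrArg Subtype.val this
    have h4 := (Cardinal.mk_le_mk_of_subset h3).trans_lt (Cl_lt hc h1 h2 (C.rep x0))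
    rw [Cardinal.mk_univ] at h4
    exact lt_irrefl _ h4
  obtain ⟨e⟩ := Order.embedding_from_countable_to_dense (α := ℚ) (β := C.R)
  exact ⟨fun n => e n, fun a b hab => e.strictMono hab⟩

end Pool.Agent.W_6cb7ce_h1b
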